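import Mathlib
import Pool.Agent.Helper65.HF.StN

/-!
Project HF, module BEL.
-/

namespace Pool.Agent.Helper95.HF

open MvPolynomial Pool.Agent.Helper45 Pool.Agent.Helper65.HF

/-- `M ^ j ≤ j! * (M + j - 1).choose j`. -/
theorem pow_le_choose (M j : ℕ) (hj : 1 ≤ j) :
    M ^ j ≤ j.factorial * (M + j - 1).choose j := by
  rcases Nat.eq_zero_or_pos M with rfl | hM
  · rw [zero_pow (by omega)]
    exact Nat.zero_le _
  · have h1 : M + j - 1 = (M - 1) + j := by omega
    rw [h1, ← Nat.ascFactorial_eq_factorial_mul_choose]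
    have h3 : M - 1 + 1 = M := by omega
    rw [h3]
    exact Nat.pow_succ_le_ascFactorial M j

/-- The base case of the induction. -/
theorem below_self (k : Type) [Field k] [CharZero k] (hB : cBAS) (j : ℕ) (hj : 2 ≤ j) :
    Below k j j := by
  intro cs hcs
  refine ⟨0, 0, ?_⟩
  intro M _ r hr
  have hcs1 : cs = 1 / (j.factorial : ℝ) := by
    have h1 := hcs.2.1
    rw [thr_self (by omega)] at h1
    linarith
  have hrle : r ≤ (M + j - 1).choose j := by
    have h1 : (M : ℝ) ^ j ≤ (j.factorial : ℝ) * ((M + j - 1).choose j : ℝ) := by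
      exact_mod_cast pow_le_choose M j (by omega)
    have hf : (0 : ℝ) < (j.factorial : ℝ) := by exact_mod_cast Nat.factorial_pos j
    have h2 : (r : ℝ) ≤ ((M + j - 1).choose j : ℝ) := by
      have h3 : (r : ℝ) ≤ 1 / (j.factorial : ℝ) * (M : ℝ) ^ j := by
        rw [hcs1] at hr
        linarith
      calc (r : ℝ) ≤ 1 / (j.factorial : ℝ) * (M : ℝ) ^ j := h3
        _ ≤ 1 / (j.factorial : ℝ) * ((j.factorial : ℝ) * ((M + j - 1).choose j : ℝ)) :=
            mul_le_mul_of_nonneg_left h1 (by positivity)
        _ = ((M + j - 1).choose j : ℝ) := by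
            field_simp
    exact_mod_cast h2
  have hg := hB k j M r (by omega) hrle
  have hH : H k j M r j = (M + j - 1).choose j - r := by
    unfold H
    rw [if_pos le_rfl, Nat.sub_self, hg]
  have hE : EE j M r j = ((M + j - 1).choose j : ℤ) - (r : ℤ) := by
    unfold EE
    have hjj : j / j = 1 := Nat.div_self (by omega)
    rw [hjj, Finset.sum_range_succ, Finset.sum_range_one]
    simp
    ring
  rw [hH, hE, Nat.cast_sub hrle]

/-- MODULE BEL. -/
theorem hBEL : Pool.Agent.Helper65.HF.sBEL := by
  intro hS hB _ k _ _ j c hj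
  induction c using Nat.strong_induction_on with
  | _ c ih =>
    intro hjc
    rcases Nat.lt_or_ge j c with h | h
    · exact hS k j c hj h (fun c' h1 h2 => ih c' h2 h1)
    · have hc : c = j := by omega
      subst hc
      exact below_self k hB c hj

end Pool.Agent.Helper95.HF
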