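import Mathlib
import Pool.Agent.Helper65.HF.StN

/-!
Project HF, module REC.
-/

namespace Pool.Agent.Helper95.HF

open MvPolynomial Pool.Agent.Helper45 Pool.Agent.Helper65.HF

/-- The expected value as a sum over a larger range. -/
theorem EE_eq {j : ℕ} (hj : 1 ≤ j) (N r c M : ℕ) (hM : c / j + 1 ≤ M) :
    EE j N r c = ∑ i ∈ Finset.range M, (if i * j ≤ c then
      (-1) ^ i * (r.choose i : ℤ) * ((N + (c - i * j) - 1).choose (c - i * j) : ℤ) else 0) := by
  unfold EE
  rw [← Finset.sum_subset (Finset.range_subset_range.2 hM)]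
  · refine Finset.sum_congr rfl fun i hi => ?_
    rw [if_pos]
    rw [Finset.mem_range] at hi
    calc i * j ≤ (c / j) * j := Nat.mul_le_mul_right j (by omega)
      _ ≤ c := Nat.div_mul_le_self c j
  · intro i _ hi
    rw [if_neg]
    rw [Finset.mem_range] at hi
    intro h
    have := (Nat.le_div_iff_mul_le hj).2 h
    omega

/-- First recursion. -/
theorem rec_one (j N r c : ℕ) (hj : 1 ≤ j) :
    EE j (N + 1) r (c + 1) = EE j N r (c + 1) + EE j (N + 1) r c := by
  have hM1 : (c + 1) / j + 1 ≤ c + 2 := by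
    have := Nat.div_le_self (c + 1) j
    omega
  have hM2 : c / j + 1 ≤ c + 2 := by
    have := Nat.div_le_self c j
    omega
  rw [EE_eq hj (N + 1) r (c + 1) (c + 2) hM1, EE_eq hj N r (c + 1) (c + 2) hM1,
    EE_eq hj (N + 1) r c (c + 2) hM2, ← Finset.sum_add_distrib]
  refine Finset.sum_congr rfl fun i _ => ?_
  by_cases h : i * j ≤ c
  · have h' : i * j ≤ c + 1 := by omega
    rw [if_pos h', if_pos h', if_pos h]
    obtain ⟨x, hx⟩ : ∃ x, c = i * j + x := ⟨c - i * j, by omega⟩
    have e1 : c + 1 - i * j = x + 1 := by omega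
    have e2 : c - i * j = x := by omega
    rw [e1, e2]
    have e3 : N + 1 + (x + 1) - 1 = (N + x) + 1 := by omega
    have e4 : N + (x + 1) - 1 = N + x := by omega
    have e5 : N + 1 + x - 1 = N + x := by omega
    rw [e3, e4, e5, Nat.choose_succ_succ (N + x) x]
    push_cast
    ring
  · by_cases h' : i * j ≤ c + 1
    · rw [if_pos h', if_pos h', if_neg h]
      have e1 : c + 1 - i * j = 0 := by omega
      rw [e1]
      simp
    · rw [if_neg h', if_neg h', if_neg h]
      simp

/-- Second recursion. -/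
theorem rec_two (j N r c : ℕ) (hj : 1 ≤ j) :
    EE j N (r + 1) c = EE j N r c - (if j ≤ c then EE j N r (c - j) else 0) := by
  have hM1 : c / j + 1 ≤ (c + 1) + 1 := by
    have := Nat.div_le_self c j
    omega
  have hM2 : (c - j) / j + 1 ≤ c + 1 := by
    have := Nat.div_le_self (c - j) j
    omega
  rw [EE_eq hj N (r + 1) c ((c + 1) + 1) hM1, EE_eq hj N r c ((c + 1) + 1) hM1,
    Finset.sum_range_succ' _ (c + 1), Finset.sum_range_succ' _ (c + 1)]
  have key : ∀ i, (if (i + 1) * j ≤ c then (-1 : ℤ) ^ (i + 1) * ((r + 1).choose (i + 1) : ℤ) *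
      ((N + (c - (i + 1) * j) - 1).choose (c - (i + 1) * j) : ℤ) else 0) =
      (if (i + 1) * j ≤ c then (-1 : ℤ) ^ (i + 1) * (r.choose (i + 1) : ℤ) *
      ((N + (c - (i + 1) * j) - 1).choose (c - (i + 1) * j) : ℤ) else 0) -
      (if (i + 1) * j ≤ c then (-1 : ℤ) ^ i * (r.choose i : ℤ) *
      ((N + (c - (i + 1) * j) - 1).choose (c - (i + 1) * j) : ℤ) else 0) := by
    intro i
    by_cases h : (i + 1) * j ≤ c
    · rw [if_pos h, if_pos h, if_pos h, Nat.choose_succ_succ r i]
      push_cast
      ring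
    · rw [if_neg h, if_neg h, if_neg h]
      simp
  rw [Finset.sum_congr rfl fun i _ => key i, Finset.sum_sub_distrib]
  have h0 : (if 0 * j ≤ c then (-1 : ℤ) ^ 0 * ((r + 1).choose 0 : ℤ) *
      ((N + (c - 0 * j) - 1).choose (c - 0 * j) : ℤ) else 0) =
      (if 0 * j ≤ c then (-1 : ℤ) ^ 0 * (r.choose 0 : ℤ) *
      ((N + (c - 0 * j) - 1).choose (c - 0 * j) : ℤ) else 0) := by
    simp
  have h1 : ∑ i ∈ Finset.range (c + 1), (if (i + 1) * j ≤ c then (-1 : ℤ) ^ i * (r.choose i : ℤ) *
      ((N + (c - (i + 1) * j) - 1).choose (c - (i + 1) * j) : ℤ) else 0) =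
      (if j ≤ c then EE j N r (c - j) else 0) := by
    by_cases hjc : j ≤ c
    · rw [if_pos hjc, EE_eq hj N r (c - j) (c + 1) hM2]
      refine Finset.sum_congr rfl fun i _ => ?_
      by_cases h : (i + 1) * j ≤ c
      · have h' : i * j ≤ c - j := by
          rw [add_mul, one_mul] at h
          omega
        rw [if_pos h, if_pos h']
        have e1 : c - (i + 1) * j = c - j - i * j := by
          rw [add_mul, one_mul]
          omega
        rw [e1]
      · have h' : ¬ i * j ≤ c - j := by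
          rw [add_mul, one_mul] at h
          omega
        rw [if_neg h, if_neg h']
    · rw [if_neg hjc]
      refine Finset.sum_eq_zero fun i _ => ?_
      rw [if_neg]
      intro h
      rw [add_mul, one_mul] at h
      omega
  rw [h0, h1]
  ring

/-- MODULE REC. -/
theorem hREC : Pool.Agent.Helper65.HF.sREC := by
  refine ⟨rec_one, rec_two, ?_, ?_⟩
  · intro j N r c h
    unfold EE
    rw [Nat.div_eq_of_lt h, Finset.sum_range_one]
    simp
  · intro j N c
    unfold EE
    rw [Finset.sum_range_succ']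
    have : ∑ i ∈ Finset.range (c / j), (-1 : ℤ) ^ (i + 1) * ((0 : ℕ).choose (i + 1) : ℤ) *
        ((N + (c - (i + 1) * j) - 1).choose (c - (i + 1) * j) : ℤ) = 0 := by
      refine Finset.sum_eq_zero fun i _ => ?_
      rw [Nat.choose_eq_zero_of_lt (Nat.succ_pos i)]
      simp
    rw [this]
    simp

end Pool.Agent.Helper95.HF
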